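import Pool.Agent.Work.MP_8d13b5_lc.Qu.Count

set_option autoImplicit false

/-!
Quantitative form of `SparseExceptions`, part 3: the size of the data, the number of data of
bounded size, and the number of exceptional zeros of all of them.
-/

namespace Pool.Agent.Work.MP_8d13b5_lc.Qu

open Finset Pool.Agent.Work.MP_8d13b5_lc Pool.Agent.Work.MP_8d13b5_lc.US

/-- the number of binary digits of `|z|` plus one -/
def wt (z : ℤ) : ℕ := Nat.log 2 z.natAbs + 2

/-- the bit size of the data -/
def sz (x : List ℤ × List ℤ) : ℕ := (x.1.map wt).sum + (x.2.map wt).sum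

/-- the complexity `s + d (log₂ s + 1)` of data of order `d` and bit size `s` -/
def cx (x : List ℤ × List ℤ) : ℕ := sz x + x.1.length * (Nat.log 2 (sz x) + 1)

theorem succ_natAbs_le (z : ℤ) : z.natAbs + 1 ≤ 2 ^ wt z := by
  have h1 : z.natAbs < 2 ^ (Nat.log 2 z.natAbs + 1) := Nat.lt_pow_succ_log_self (by norm_num) _
  have h2 : 2 ^ (Nat.log 2 z.natAbs + 1) ≤ 2 ^ wt z := Nat.pow_le_pow_right (by norm_num) (by
    unfold wt; omega)
  omega

theorem sum_natAbs_lt (l : List ℤ) : (l.map Int.natAbs).sum + 1 ≤ 2 ^ (l.map wt).sum := by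
  induction l with
  | nil => simp
  | cons a l ih =>
    rw [List.map_cons, List.map_cons, List.sum_cons, List.sum_cons, pow_add]
    calc a.natAbs + (l.map Int.natAbs).sum + 1 ≤ (a.natAbs + 1) * ((l.map Int.natAbs).sum + 1) := by
          nlinarith [Nat.zero_le (a.natAbs * (l.map Int.natAbs).sum)]
      _ ≤ 2 ^ wt a * 2 ^ (l.map wt).sum := Nat.mul_le_mul (succ_natAbs_le a) ih

theorem two_mul_length_le (l : List ℤ) : 2 * l.length ≤ (l.map wt).sum := by
  induction l with
  | nil => simp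
  | cons a l ih =>
    rw [List.map_cons, List.sum_cons, List.length_cons]
    unfold wt at *
    omega

theorem four_mul_le (x : Code) (hx : valid x) : 4 * x.1.length ≤ sz x := by
  have h1 := two_mul_length_le x.1
  have h2 := two_mul_length_le x.2
  have h3 := hx.1
  unfold sz
  omega

/-- the number of exceptional zeros of one code -/
theorem card_exc_code (x : Code) (hx : valid x) (W : Finset ℕ) (hW : ∀ n ∈ W, Exc x n) :
    W.card ≤ 3 * sz x * (x.1.length * (4 * sz x ^ 2) ^ x.1.length) ^ 2 := by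
  have h4 := four_mul_le x hx
  have hd1 := hx.2.1
  obtain ⟨E, hd, v, h0, rfl⟩ := exists_code x hx
  rw [length_code] at h4 hd1 ⊢
  have hsum1 : ((code E v).1.map Int.natAbs).sum = ∑ i, (E.coeffs i).natAbs := by
    show ((List.ofFn E.coeffs).reverse.map Int.natAbs).sum = _
    rw [List.map_reverse, List.sum_reverse, List.map_ofFn, List.sum_ofFn]
    rfl
  have hsum2 : ((code E v).2.map Int.natAbs).sum = ∑ i, (v i).natAbs := by
    show ((List.ofFn v).map Int.natAbs).sum = _
    rw [List.map_ofFn, List.sum_ofFn]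
    rfl
  have hM := sum_natAbs_lt (code E v).1
  have hU := sum_natAbs_lt (code E v).2
  rw [hsum1] at hM
  rw [hsum2] at hU
  set a := ((code E v).1.map wt).sum with ha
  set b := ((code E v).2.map wt).sum with hb
  have hs : sz (code E v) = a + b := rfl
  apply card_exc' E hd h0 v (sz (code E v)) (by omega) _ _ W hW
  · have h5 : (E.coeffs ⟨0, hd⟩).natAbs ≤ ∑ i, (E.coeffs i).natAbs :=
      single_le_sum (f := fun i => (E.coeffs i).natAbs) (fun i _ => Nat.zero_le _) (mem_univ _)
    have h6 : 2 ^ a ≤ 2 ^ sz (code E v) := Nat.pow_le_pow_right (by norm_num) (by omega)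
    omega
  · intro i
    have hg := growth E (E.mkSol v) (E.is_sol_mkSol v) (∑ i, (E.coeffs i).natAbs + 1)
      (∑ i, (v i).natAbs) (by omega) (by omega) (by
        intro i hi
        have h7 := E.mkSol_eq_init v ⟨i, hi⟩
        simp only at h7
        rw [h7]
        exact single_le_sum (f := fun i => (v i).natAbs) (fun i _ => Nat.zero_le _) (mem_univ _)) i
    refine hg.trans_lt ?_
    have h8 : (∑ i, (E.coeffs i).natAbs + 1) ^ i ≤ (2 ^ a) ^ i := Nat.pow_le_pow_left hM i
    calc (∑ i, (v i).natAbs) * (∑ i, (E.coeffs i).natAbs + 1) ^ i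
        < 2 ^ b * (∑ i, (E.coeffs i).natAbs + 1) ^ i := by
          apply Nat.mul_lt_mul_of_pos_right _ (by positivity)
          omega
      _ ≤ 2 ^ b * (2 ^ a) ^ i := Nat.mul_le_mul_left _ h8
      _ = 2 ^ (b + a * i) := by rw [pow_add, pow_mul]
      _ ≤ 2 ^ (sz (code E v) * (i + 1)) := by
          apply Nat.pow_le_pow_right (by norm_num)
          rw [hs]
          nlinarith [Nat.zero_le (b * i)]

theorem bound_pow (x : Code) (hx : valid x) :
    3 * sz x * (x.1.length * (4 * sz x ^ 2) ^ x.1.length) ^ 2 ≤ 2 ^ (7 * cx x) := by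
  have h4 := four_mul_le x hx
  have hd1 := hx.2.1
  unfold cx
  set s := sz x with hs
  set d := x.1.length with hd
  set L := Nat.log 2 s + 1 with hL
  have hsL : s ≤ 2 ^ L := (Nat.lt_pow_succ_log_self (by norm_num) s).le
  have h1 : 3 * s * (d * (4 * s ^ 2) ^ d) ^ 2 = (3 * d ^ 2 * s) * (2 ^ (4 * d)) * s ^ (4 * d) := by
    have e1 : (4 * s ^ 2) ^ d = 2 ^ (2 * d) * s ^ (2 * d) := by
      rw [mul_pow, ← pow_mul, show (4 : ℕ) = 2 ^ 2 by norm_num, ← pow_mul]
    rw [e1]
    have e2 : 2 ^ (4 * d) = (2 ^ (2 * d)) ^ 2 := by rw [← pow_mul]; ring_nf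
    have e3 : s ^ (4 * d) = (s ^ (2 * d)) ^ 2 := by rw [← pow_mul]; ring_nf
    rw [e2, e3]
    ring
  rw [h1]
  have h2 : 3 * d ^ 2 * s ≤ 2 ^ (3 * (d * L)) := by
    have h3 : 3 * d ^ 2 ≤ s ^ 2 := by nlinarith
    calc 3 * d ^ 2 * s ≤ s ^ 2 * s := Nat.mul_le_mul_right _ h3
      _ = s ^ 3 := by ring
      _ ≤ (2 ^ L) ^ 3 := Nat.pow_le_pow_left hsL 3
      _ = 2 ^ (3 * L) := by rw [← pow_mul]; ring_nf
      _ ≤ 2 ^ (3 * (d * L)) := by
          apply Nat.pow_le_pow_right (by norm_num)
          nlinarith [Nat.zero_le L]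
  have h5 : 2 ^ (4 * d) ≤ 2 ^ s := Nat.pow_le_pow_right (by norm_num) h4
  have h6 : s ^ (4 * d) ≤ 2 ^ (4 * (d * L)) := by
    calc s ^ (4 * d) ≤ (2 ^ L) ^ (4 * d) := Nat.pow_le_pow_left hsL _
      _ = 2 ^ (4 * (d * L)) := by rw [← pow_mul]; ring_nf
  calc (3 * d ^ 2 * s) * (2 ^ (4 * d)) * s ^ (4 * d)
      ≤ 2 ^ (3 * (d * L)) * 2 ^ s * 2 ^ (4 * (d * L)) :=
        Nat.mul_le_mul (Nat.mul_le_mul h2 h5) h6
    _ = 2 ^ (3 * (d * L) + s + 4 * (d * L)) := by rw [pow_add, pow_add]
    _ ≤ 2 ^ (7 * (s + d * L)) := by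
        apply Nat.pow_le_pow_right (by norm_num)
        nlinarith [Nat.zero_le (d * L)]

/-! ### The number of codes -/

/-- lists of length at most `k` and weight at most `t` -/
noncomputable def LF : ℕ → ℕ → Finset (List ℤ)
  | 0, _ => {[]}
  | k + 1, t => insert [] (((Icc (-(2 : ℤ) ^ t) (2 ^ t)).filter (fun z => wt z ≤ t)).biUnion
      fun z => (LF k (t - wt z)).image (fun l => z :: l))

theorem mem_LF (k : ℕ) : ∀ (t : ℕ) (l : List ℤ), l.length ≤ k → (l.map wt).sum ≤ t →
    l ∈ LF k t := by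
  induction k with
  | zero =>
    intro t l hl _
    have h : l = [] := List.length_eq_zero_iff.1 (by omega)
    subst h
    simp [LF]
  | succ k ih =>
    intro t l hl ht
    unfold LF
    cases l with
    | nil => exact mem_insert_self _ _
    | cons a l =>
      rw [List.map_cons, List.sum_cons] at ht
      rw [List.length_cons] at hl
      refine mem_insert_of_mem (mem_biUnion.2 ⟨a, ?_, ?_⟩)
      · rw [mem_filter, mem_Icc]
        have h1 := succ_natAbs_le a
        have h2 : 2 ^ wt a ≤ 2 ^ t := Nat.pow_le_pow_right (by norm_num) (by omega)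
        have h3 : a.natAbs ≤ 2 ^ t := by omega
        have h4 : ((a.natAbs : ℕ) : ℤ) ≤ 2 ^ t := by exact_mod_cast h3
        refine ⟨⟨?_, ?_⟩, by omega⟩
        · omega
        · omega
      · exact mem_image.2 ⟨l, ih _ l (by omega) (by omega), rfl⟩

theorem geo (t : ℕ) : ∑ j ∈ Icc 2 t, 2 ^ j * 4 ^ (t - j) + 2 ^ t ≤ 4 ^ t := by
  induction t with
  | zero => simp
  | succ t ih =>
    by_cases ht : t = 0
    · subst ht
      norm_num
    · have h1 : ∑ j ∈ Icc 2 (t + 1), 2 ^ j * 4 ^ (t + 1 - j) =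
          4 * ∑ j ∈ Icc 2 t, 2 ^ j * 4 ^ (t - j) + 2 ^ (t + 1) := by
        rw [sum_Icc_succ_top (by omega), mul_sum]
        congr 1
        · apply sum_congr rfl
          intro j hj
          rw [mem_Icc] at hj
          rw [show t + 1 - j = (t - j) + 1 by omega, pow_succ]
          ring
        · simp
      rw [h1]
      have h2 : 2 ^ (t + 1) = 2 * 2 ^ t := by ring
      have h3 : 4 ^ (t + 1) = 4 * 4 ^ t := by ring
      omega

theorem card_wt (j : ℕ) (A : Finset ℤ) (hA : ∀ z ∈ A, wt z = j) : A.card ≤ 2 ^ j := by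
  have hsub : A ⊆ Ioo (-(2 : ℤ) ^ (j - 1)) (2 ^ (j - 1)) := by
    intro z hz
    have h1 := hA z hz
    have h2 : z.natAbs < 2 ^ (Nat.log 2 z.natAbs + 1) := Nat.lt_pow_succ_log_self (by norm_num) _
    have h3 : Nat.log 2 z.natAbs + 1 = j - 1 := by unfold wt at h1; omega
    rw [h3] at h2
    have h4 : ((z.natAbs : ℕ) : ℤ) < 2 ^ (j - 1) := by exact_mod_cast h2
    rw [mem_Ioo]
    constructor <;> omega
  rcases A.eq_empty_or_nonempty with h | ⟨z, hz⟩
  · rw [h]; simp
  · have hj : 2 ≤ j := by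
      have := hA z hz
      unfold wt at this
      omega
    refine (card_le_card hsub).trans ?_
    rw [Int.card_Ioo]
    have h5 : (2 : ℤ) ^ j = 2 * 2 ^ (j - 1) := by
      conv_lhs => rw [show j = (j - 1) + 1 by omega, pow_succ]
      ring
    have h6 : (2 : ℤ) ^ (j - 1) - -(2 : ℤ) ^ (j - 1) - 1 = 2 ^ j - 1 := by rw [h5]; ring
    rw [h6]
    apply Int.toNat_le.2
    push_cast
    linarith

theorem card_LF (k : ℕ) : ∀ t : ℕ, (LF k t).card ≤ 4 ^ t := by
  induction k with
  | zero =>
    intro t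
    simp only [LF, card_singleton]
    exact Nat.one_le_pow _ _ (by norm_num)
  | succ k ih =>
    intro t
    unfold LF
    refine (card_insert_le _ _).trans ?_
    set B := (Icc (-(2 : ℤ) ^ t) (2 ^ t)).filter (fun z => wt z ≤ t) with hB
    have h1 : (B.biUnion fun z => (LF k (t - wt z)).image (fun l => z :: l)).card ≤
        ∑ z ∈ B, 4 ^ (t - wt z) := by
      refine card_biUnion_le.trans (sum_le_sum fun z _ => ?_)
      exact card_image_le.trans (ih _)
    have h2 : ∑ z ∈ B, 4 ^ (t - wt z) = ∑ j ∈ Icc 2 t, ∑ z ∈ B.filter (fun z => wt z = j),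
        4 ^ (t - wt z) := by
      symm
      apply sum_fiberwise_of_maps_to
      intro z hz
      rw [hB, mem_filter] at hz
      rw [mem_Icc]
      refine ⟨?_, hz.2⟩
      unfold wt
      omega
    have h3 : ∑ j ∈ Icc 2 t, ∑ z ∈ B.filter (fun z => wt z = j), 4 ^ (t - wt z) ≤
        ∑ j ∈ Icc 2 t, 2 ^ j * 4 ^ (t - j) := by
      apply sum_le_sum
      intro j _
      calc ∑ z ∈ B.filter (fun z => wt z = j), 4 ^ (t - wt z)
          = ∑ z ∈ B.filter (fun z => wt z = j), 4 ^ (t - j) := by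
            apply sum_congr rfl
            intro z hz
            rw [(mem_filter.1 hz).2]
        _ = (B.filter (fun z => wt z = j)).card * 4 ^ (t - j) := by rw [sum_const, smul_eq_mul]
        _ ≤ 2 ^ j * 4 ^ (t - j) := by
            apply Nat.mul_le_mul_right
            exact card_wt j _ (fun z hz => (mem_filter.1 hz).2)
    have h4 := geo t
    have h5 : 1 ≤ 2 ^ t := Nat.one_le_two_pow
    omega

/-- the codes of bit size at most `t` -/
noncomputable def CS (t : ℕ) : Finset (List ℤ × List ℤ) :=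
  (LF t t).image (fun l => (l.take (l.length / 2), l.drop (l.length / 2)))

theorem card_CS (t : ℕ) : (CS t).card ≤ 4 ^ t := card_image_le.trans (card_LF t t)

theorem mem_CS (x : Code) (hx : valid x) (t : ℕ) (ht : sz x ≤ t) : x ∈ CS t := by
  unfold CS
  rw [mem_image]
  have h1 := two_mul_length_le x.1
  have h2 := two_mul_length_le x.2
  have h3 := hx.1
  refine ⟨x.1 ++ x.2, ?_, ?_⟩
  · apply mem_LF
    · rw [List.length_append]
      unfold sz at ht
      omega
    · rw [List.map_append, List.sum_append]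
      exact ht
  · have h4 : (x.1 ++ x.2).length / 2 = x.1.length := by
      rw [List.length_append]
      omega
    rw [h4]
    simp

/-- the number of exceptional zeros of all sequences of complexity at most `t` -/
theorem card_all (t : ℕ) (W : Finset ℕ)
    (hW : ∀ n ∈ W, ∃ x : Code, valid x ∧ cx x ≤ t ∧ Exc x n) : W.card ≤ 2 ^ (9 * t) := by
  classical
  set B := (CS t).filter (fun x => valid x ∧ cx x ≤ t) with hB
  have hsub : W ⊆ B.biUnion (fun x => W.filter (fun n => Exc x n)) := by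
    intro n hn
    obtain ⟨x, h1, h2, h3⟩ := hW n hn
    refine mem_biUnion.2 ⟨x, ?_, mem_filter.2 ⟨hn, h3⟩⟩
    rw [hB, mem_filter]
    refine ⟨mem_CS x h1 t ?_, h1, h2⟩
    unfold cx at h2
    omega
  calc W.card ≤ (B.biUnion (fun x => W.filter (fun n => Exc x n))).card := card_le_card hsub
    _ ≤ ∑ x ∈ B, (W.filter (fun n => Exc x n)).card := card_biUnion_le
    _ ≤ ∑ x ∈ B, 2 ^ (7 * t) := by
        apply sum_le_sum
        intro x hx
        rw [hB, mem_filter] at hx
        refine (card_exc_code x hx.2.1 _ (fun n hn => (mem_filter.1 hn).2)).trans ?_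
        refine (bound_pow x hx.2.1).trans ?_
        exact Nat.pow_le_pow_right (by norm_num) (Nat.mul_le_mul_left _ hx.2.2)
    _ = B.card * 2 ^ (7 * t) := by rw [sum_const, smul_eq_mul]
    _ ≤ 4 ^ t * 2 ^ (7 * t) := by
        apply Nat.mul_le_mul_right
        exact (card_le_card (filter_subset _ _)).trans (card_CS t)
    _ = 2 ^ (9 * t) := by
        rw [show (4 : ℕ) = 2 ^ 2 by norm_num, ← pow_mul, ← pow_add]
        congr 1
        ring

end Pool.Agent.Work.MP_8d13b5_lc.Qu
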