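import Pool.Agent.Work.MP_8d13b5_lc.Qu.Code

set_option autoImplicit false

/-!
Quantitative form of `SparseExceptions`, part 4: primitive recursiveness of the complexity, a
bound for the code of data of bounded size.
-/

namespace Pool.Agent.Work.MP_8d13b5_lc.Qu

open Finset Encodable Pool.Agent.Work.MP_8d13b5_lc Pool.Agent.Work.MP_8d13b5_lc.US

theorem primrec_log2 : Primrec (Nat.log 2) := by
  have h : Primrec (fun n : ℕ => Nat.findGreatest (fun k => 2 ^ k ≤ n) n) := by
    refine Primrec.nat_findGreatest (f := fun n : ℕ => n)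
      (p := fun (n : ℕ) (k : ℕ) => 2 ^ k ≤ n) Primrec.id ?_
    exact Primrec.nat_le.comp (primrec_pow.comp (Primrec.const 2) Primrec.snd) Primrec.fst
  refine h.of_eq fun n => ?_
  rcases Nat.eq_zero_or_pos n with rfl | hn
  · simp
  · apply le_antisymm
    · have h1 : 2 ^ Nat.findGreatest (fun k => 2 ^ k ≤ n) n ≤ n :=
        Nat.findGreatest_spec (P := fun k => 2 ^ k ≤ n) (Nat.zero_le n) (by rw [pow_zero]; exact hn)
      exact Nat.le_log_of_pow_le (by norm_num) h1
    · apply Nat.le_findGreatest
      · exact (Nat.log_lt_self 2 hn.ne').le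
      · exact Nat.pow_log_le_self 2 hn.ne'

theorem primrec_wt : Primrec wt := by
  unfold wt
  exact Primrec.nat_add.comp (primrec_log2.comp primrec_natAbs) (Primrec.const 2)

theorem primrec_wsum : Primrec (fun l : List ℤ => (l.map wt).sum) := by
  have h : Primrec (fun l : List ℤ => (l.map wt).foldr (fun a b => a + b) 0) := by
    refine Primrec.list_foldr (f := fun l : List ℤ => l.map wt) (g := fun _ => (0 : ℕ))
      (h := fun _ q => q.1 + q.2) ?_ (Primrec.const 0) ?_
    · exact Primrec.list_map Primrec.id (primrec_wt.comp Primrec.snd).to₂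
    · exact (Primrec.nat_add.comp (Primrec.fst.comp Primrec.snd)
        (Primrec.snd.comp Primrec.snd)).to₂
  exact h

theorem primrec_sz : Primrec sz := by
  unfold sz
  exact Primrec.nat_add.comp (primrec_wsum.comp Primrec.fst) (primrec_wsum.comp Primrec.snd)

theorem primrec_cx : Primrec cx := by
  unfold cx
  exact Primrec.nat_add.comp primrec_sz (Primrec.nat_mul.comp primrec_len
    (Primrec.nat_add.comp (primrec_log2.comp primrec_sz) (Primrec.const 1)))

/-! ### A bound for the codes -/

theorem encode_int_le (z : ℤ) : encode z ≤ 2 * z.natAbs + 1 := by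
  cases z with
  | ofNat n =>
    show 2 * n ≤ 2 * n + 1
    omega
  | negSucc n =>
    show 2 * n + 1 ≤ 2 * (n + 1) + 1
    omega

def BL (M k : ℕ) : ℕ := Nat.rec (motive := fun _ => ℕ) M (fun _ ih => (ih + 1) ^ 2) k

theorem BL_succ (M k : ℕ) : BL M (k + 1) = (BL M k + 1) ^ 2 := rfl

theorem BL_mono (M : ℕ) : Monotone (BL M) := by
  apply monotone_nat_of_le_succ
  intro k
  rw [BL_succ]
  nlinarith

theorem encode_list_le (M : ℕ) (l : List ℤ) (h : ∀ z ∈ l, encode z ≤ M) :
    encode l ≤ BL M l.length := by
  induction l with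
  | nil => exact Nat.zero_le _
  | cons a l ih =>
    rw [encode_list_cons, List.length_cons, BL_succ]
    have h1 := ih (fun z hz => h z (List.mem_cons_of_mem _ hz))
    have h2 : encode a ≤ BL M l.length :=
      (h a List.mem_cons_self).trans (BL_mono M (Nat.zero_le _))
    have h3 := Nat.pair_lt_max_add_one_sq (encode a) (encode l)
    have h4 : (max (encode a) (encode l) + 1) ^ 2 ≤ (BL M l.length + 1) ^ 2 := by
      apply Nat.pow_le_pow_left
      have := max_le h2 h1
      omega
    exact (Nat.succ_le_of_lt h3).trans h4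

/-- a strict upper bound for the codes of data of bit size at most `n` -/
def BB (n : ℕ) : ℕ := BL (2 * 2 ^ n + 1) (n + 1)

theorem wt_le_sum (l : List ℤ) (z : ℤ) (hz : z ∈ l) : wt z ≤ (l.map wt).sum := by
  induction l with
  | nil => simp at hz
  | cons a l ih =>
    rw [List.map_cons, List.sum_cons]
    rcases List.mem_cons.1 hz with h | h
    · rw [h]; omega
    · have := ih h
      omega

theorem encode_lt_BB (x : Code) (n : ℕ) (hx : sz x ≤ n) : encode x < BB n := by
  have key : ∀ l : List ℤ, (l.map wt).sum ≤ n → encode l ≤ BL (2 * 2 ^ n + 1) n := by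
    intro l hl
    have h1 := two_mul_length_le l
    refine (encode_list_le (2 * 2 ^ n + 1) l ?_).trans (BL_mono _ (by omega))
    intro z hz
    refine (encode_int_le z).trans ?_
    have h2 := succ_natAbs_le z
    have h3 : 2 ^ wt z ≤ 2 ^ n :=
      Nat.pow_le_pow_right (by norm_num) ((wt_le_sum l z hz).trans hl)
    omega
  have h1 := key x.1 (by unfold sz at hx; omega)
  have h2 := key x.2 (by unfold sz at hx; omega)
  have h3 : encode x = Nat.pair (encode x.1) (encode x.2) := rfl
  rw [h3]
  have h4 := Nat.pair_lt_max_add_one_sq (encode x.1) (encode x.2)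
  refine h4.trans_le ?_
  unfold BB
  rw [BL_succ]
  apply Nat.pow_le_pow_left
  have := max_le h1 h2
  omega

theorem primrec_BB : Primrec BB := by
  have h : Primrec₂ (fun (M k : ℕ) => BL M k) := by
    unfold BL
    refine Primrec.nat_rec (f := fun M : ℕ => M) (g := fun (_ : ℕ) (q : ℕ × ℕ) => (q.2 + 1) ^ 2)
      Primrec.id ?_
    exact (primrec_pow.comp (Primrec.succ.comp (Primrec.snd.comp Primrec.snd))
      (Primrec.const 2)).to₂
  unfold BB
  refine h.comp ?_ Primrec.succ
  exact Primrec.nat_add.comp (Primrec.nat_mul.comp (Primrec.const 2)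
    (primrec_pow.comp (Primrec.const 2) Primrec.id)) (Primrec.const 1)

/-- `n` is an exceptional zero of the sequence coded by `e`, of complexity less than `k` -/
def EQ (e : ℕ) (y : ℕ × ℕ) : Prop :=
  ∃ x : Code, decode e = some x ∧ valid x ∧ cx x < y.1 ∧ Exc x y.2

theorem primrec_EQ : PrimrecRel EQ := by
  classical
  have h : Primrec₂ (fun (e : ℕ) (y : ℕ × ℕ) => Option.casesOn (motive := fun _ => Bool)
      (decode e : Option Code) false (fun x => decide (valid x ∧ cx x < y.1 ∧ Exc x y.2))) := by
    refine Primrec.option_casesOn (o := fun p : ℕ × (ℕ × ℕ) => (decode p.1 : Option Code))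
      (g := fun (p : ℕ × (ℕ × ℕ)) (x : Code) => decide (valid x ∧ cx x < p.2.1 ∧ Exc x p.2.2))
      (Primrec.decode.comp Primrec.fst) (Primrec.const false) ?_
    have h1 : PrimrecPred (fun q : (ℕ × (ℕ × ℕ)) × Code =>
        valid q.2 ∧ cx q.2 < q.1.2.1 ∧ Exc q.2 q.1.2.2) :=
      (primrec_valid.comp Primrec.snd).and
        ((Primrec.nat_lt.comp (primrec_cx.comp Primrec.snd)
          (Primrec.fst.comp (Primrec.snd.comp Primrec.fst))).and
        (primrec_Exc.comp Primrec.snd (Primrec.snd.comp (Primrec.snd.comp Primrec.fst))))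
    exact h1.decide
  have h2 : PrimrecPred (fun p : ℕ × (ℕ × ℕ) => Option.casesOn (motive := fun _ => Bool)
      (decode p.1 : Option Code) false
        (fun x => decide (valid x ∧ cx x < p.2.1 ∧ Exc x p.2.2)) = true) :=
    Primrec.eq.comp h (Primrec.const true)
  refine h2.of_eq fun p => ?_
  unfold EQ
  cases hdec : (decode p.1 : Option Code) with
  | none => simp
  | some x => simp

/-- no sequence of complexity less than `k` has `n` as an exceptional zero -/
def RQ (k n : ℕ) : Prop := ∀ e < BB n, ¬ EQ e (k, n)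

theorem primrec_RQ : PrimrecRel RQ := by
  have h1 : PrimrecRel (fun (e : ℕ) (y : ℕ × ℕ) => ¬ EQ e y) := primrec_EQ.not
  have h2 := rel_forall_lt h1
  exact h2.comp (primrec_BB.comp Primrec.snd) Primrec.id

end Pool.Agent.Work.MP_8d13b5_lc.Qu
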