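import Pool.Agent.Work.MP_8d13b5_lc.Qu.Per

set_option autoImplicit false

/-!
Quantitative form of `SparseExceptions`, part 2: the number of exceptional zeros of one sequence.
-/

namespace Pool.Agent.Work.MP_8d13b5_lc.Qu

open Polynomial Finset Pool.Agent.Work.MP_8d13b5_lc Pool.Agent.Work.MP_8d13b5_lc.US

/-- the prime and the period -/
theorem exists_good (E : LinearRecurrence ℤ) (hd : 0 < E.order) (h0 : E.coeffs ⟨0, hd⟩ ≠ 0)
    (v : Fin E.order → ℤ) (s : ℕ) (hs : 2 ≤ s) (hcs : (E.coeffs ⟨0, hd⟩).natAbs < 2 ^ s) :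
    ∃ p : ℕ, p.Prime ∧ 3 ≤ p ∧ ∃ T : ℕ, 0 < T ∧ T ≤ (4 * s ^ 2) ^ E.order ∧
      T ∣ per (code E v) ∧ ∀ w : ℕ → ℤ, E.IsSolution w → ∀ n, (p : ℤ) ∣ w (n + T) - w n := by
  classical
  set c := (E.coeffs ⟨0, hd⟩).natAbs with hc
  have hc0 : c ≠ 0 := by rw [hc]; exact Int.natAbs_ne_zero.2 h0
  have hex : ∃ p : ℕ, p.Prime ∧ 3 ≤ p ∧ ¬ p ∣ c := by
    obtain ⟨p, h1, h2, -, h4⟩ := exists_prime_le c hc0 s hs hcs
    exact ⟨p, h1, h2, h4⟩
  obtain ⟨p, hp⟩ : ∃ p, p = Nat.find hex := ⟨_, rfl⟩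
  have hps := Nat.find_spec hex
  rw [← hp] at hps
  obtain ⟨hp1, hp2, hp3⟩ := hps
  have hmin : ∀ q : ℕ, q.Prime → 3 ≤ q → ¬ q ∣ c → p ≤ q := by
    intro q h1 h2 h3
    rw [hp]
    exact Nat.find_min' hex ⟨h1, h2, h3⟩
  have hp4 : p ≤ 4 * s ^ 2 := by
    obtain ⟨q, h1, h2, h3, h4⟩ := exists_prime_le c hc0 s hs hcs
    exact (hmin q h1 h2 h4).trans h3
  obtain ⟨q, hq1, hq2, hq3, hq4⟩ := exists_prime E hd h0 v
  have hpq : p ≤ q := by
    apply hmin q hq1 hq2
    rwa [← Int.natCast_dvd]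
  have : Fact p.Prime := ⟨hp1⟩
  obtain ⟨T, hT0, hT1, hT2⟩ := period_le E hd p (by rwa [Int.natCast_dvd])
  refine ⟨p, hp1, hp2, T, hT0, hT1.trans (Nat.pow_le_pow_left hp4 _), ?_, hT2⟩
  exact (Nat.dvd_factorial hT0 (hT1.trans (Nat.pow_le_pow_left hpq _))).trans hq4

/-- zeros in a residue class modulo a period -/
theorem class_zeros' (E : LinearRecurrence ℤ) (p : ℕ) [hp : Fact p.Prime]
    (h3 : 3 ≤ p) (T : ℕ) (hT : ∀ w : ℕ → ℤ, E.IsSolution w → ∀ n, (p : ℤ) ∣ w (n + T) - w n)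
    (s : ℕ → ℤ) (hs : E.IsSolution s) (r : ℕ)
    (Z : Finset ℕ) (hZ : ∀ n ∈ Z, s (r + n * T) = 0) (m : ℕ) :
    (p : ℤ) ^ (Z.card / 2) ∣ s (r + m * T) := by
  refine zeros_dvd p h3 (fun k => (fwdDiff T)^[k] s r) ?_ (fun n => s (r + n * T)) ?_ Z hZ m
  · intro j
    obtain ⟨s', _, h'⟩ := fwdDiff_iterate E p hp.out.ne_zero T hT s hs j
    rw [h']
    exact dvd_mul_right _ _
  · intro n
    have h1 := shift_eq_sum_fwdDiff_iter T s n r
    rw [smul_eq_mul] at h1
    rw [h1]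
    apply sum_congr rfl
    intro k _
    rw [nsmul_eq_mul]

/-- the zeros in one class -/
theorem card_class' (E : LinearRecurrence ℤ) (p : ℕ) (hp : p.Prime)
    (h3 : 3 ≤ p) (T : ℕ) (hT0 : 0 < T)
    (hT : ∀ w : ℕ → ℤ, E.IsSolution w → ∀ n, (p : ℤ) ∣ w (n + T) - w n)
    (w : ℕ → ℤ) (hw : E.IsSolution w) (s : ℕ) (hs : 1 ≤ s)
    (hgr : ∀ i, (w i).natAbs < 2 ^ (s * (i + 1))) (r : ℕ)
    (W : Finset ℕ) (hW : ∀ n ∈ W, w n = 0 ∧ n % T = r) (m : ℕ) (hm : w (r + m * T) ≠ 0) :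
    W.card ≤ 3 * s * (r + m * T + 1) := by
  classical
  have : Fact p.Prime := ⟨hp⟩
  have hdecomp : ∀ n ∈ W, r + n / T * T = n := by
    intro n hn
    have h1 := (hW n hn).2
    have h2 := Nat.mod_add_div n T
    rw [h1] at h2
    rw [mul_comm]
    exact h2
  have hinj : Set.InjOn (fun n => n / T) (W : Set ℕ) := by
    intro a ha b hb hab
    have h1 := hdecomp a ha
    have h2 := hdecomp b hb
    have hab' : a / T = b / T := hab
    rw [← h1, ← h2, hab']
  have hZ : ∀ k ∈ W.image (fun n => n / T), w (r + k * T) = 0 := by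
    intro k hk
    obtain ⟨n, hn, rfl⟩ := mem_image.1 hk
    show w (r + n / T * T) = 0
    rw [hdecomp n hn]
    exact (hW n hn).1
  have hdvd := class_zeros' E p h3 T hT w hw r _ hZ m
  rw [card_image_of_injOn hinj] at hdvd
  have hdvd' : p ^ (W.card / 2) ∣ (w (r + m * T)).natAbs := by
    rw [← Int.natCast_dvd]
    exact_mod_cast hdvd
  have hle : p ^ (W.card / 2) ≤ (w (r + m * T)).natAbs :=
    Nat.le_of_dvd (Int.natAbs_pos.2 hm) hdvd'
  have h2 : 2 ^ (W.card / 2) ≤ p ^ (W.card / 2) := Nat.pow_le_pow_left (by omega) _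
  have h4 : 2 ^ (W.card / 2) < 2 ^ (s * (r + m * T + 1)) := (h2.trans hle).trans_lt (hgr _)
  have h5 := (Nat.pow_lt_pow_iff_right (by norm_num : 1 < 2)).1 h4
  have h6 : 0 < s * (r + m * T + 1) := by positivity
  nlinarith [Nat.div_add_mod W.card 2, Nat.mod_lt W.card (by norm_num : 0 < 2)]

theorem sum_le_sq (n : ℕ) : ∑ i ∈ range n, (i + 1) ≤ n ^ 2 := by
  calc ∑ i ∈ range n, (i + 1) ≤ ∑ i ∈ range n, n := by
        apply sum_le_sum
        intro i hi
        rw [mem_range] at hi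
        omega
    _ = n ^ 2 := by simp [sq]

/-- the number of exceptional zeros -/
theorem card_exc' (E : LinearRecurrence ℤ) (hd : 0 < E.order) (h0 : E.coeffs ⟨0, hd⟩ ≠ 0)
    (v : Fin E.order → ℤ) (s : ℕ) (hs : 2 ≤ s) (hcs : (E.coeffs ⟨0, hd⟩).natAbs < 2 ^ s)
    (hgr : ∀ i, (E.mkSol v i).natAbs < 2 ^ (s * (i + 1)))
    (W : Finset ℕ) (hW : ∀ n ∈ W, Exc (code E v) n) :
    W.card ≤ 3 * s * (E.order * (4 * s ^ 2) ^ E.order) ^ 2 := by
  classical
  obtain ⟨p, hp, h3, T, hTpos, hTle, hTper, hT⟩ := exists_good E hd h0 v s hs hcs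
  have hsol := E.is_sol_mkSol v
  have hW' : ∀ n ∈ W, E.mkSol v n = 0 ∧ ∃ m < E.order, E.mkSol v (n % T + m * T) ≠ 0 := by
    intro n hn
    obtain ⟨h1, m, hm, h2⟩ := hW n hn
    rw [val_code E hd] at h1 h2
    refine ⟨h1, ?_⟩
    by_contra hcon
    push Not at hcon
    have h4 := class_eq_zero E T (n % T) _ hsol hcon
    apply h2
    obtain ⟨q, hq⟩ := hTper
    have h5 : n % per (code E v) + m * per (code E v) =
        n % T + ((n % per (code E v)) / T + m * q) * T := by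
      have h6 : n % per (code E v) % T = n % T := Nat.mod_mod_of_dvd n ⟨q, hq⟩
      have h7 := Nat.mod_add_div (n % per (code E v)) T
      rw [h6] at h7
      calc n % per (code E v) + m * per (code E v)
          = n % T + T * (n % per (code E v) / T) + m * (T * q) := by
            rw [h7, ← hq]
        _ = _ := by ring
    rw [h5]
    exact h4 _
  set Rn := W.image (fun n => n % T) with hRn
  have hR : ∀ r ∈ Rn, ∃ m < E.order, E.mkSol v (r + m * T) ≠ 0 := by
    intro r hr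
    obtain ⟨n, hn, rfl⟩ := mem_image.1 hr
    exact (hW' n hn).2
  choose! μ hμ1 hμ2 using hR
  have hRlt : ∀ r ∈ Rn, r < T := by
    intro r hr
    obtain ⟨n, hn, rfl⟩ := mem_image.1 hr
    exact Nat.mod_lt _ hTpos
  have h1 : W.card = ∑ r ∈ Rn, (W.filter (fun n => n % T = r)).card :=
    card_eq_sum_card_fiberwise (fun n hn => mem_image_of_mem _ hn)
  have h2 : ∀ r ∈ Rn, (W.filter (fun n => n % T = r)).card ≤
      3 * s * (r + μ r * T + 1) := by
    intro r hr
    apply card_class' E p hp h3 T hTpos hT _ hsol s (by omega) hgr r _ _ (μ r) (hμ2 r hr)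
    intro n hn
    rw [mem_filter] at hn
    exact ⟨(hW' n hn.1).1, hn.2⟩
  have hinj : Set.InjOn (fun r => r + μ r * T) (Rn : Set ℕ) := by
    intro a ha b hb hab
    have ha' := hRlt a ha
    have hb' := hRlt b hb
    have h3 : (a + μ a * T) % T = (b + μ b * T) % T := by
      simp only at hab
      rw [hab]
    rwa [Nat.add_mul_mod_self_right, Nat.add_mul_mod_self_right, Nat.mod_eq_of_lt ha',
      Nat.mod_eq_of_lt hb'] at h3
  calc W.card = ∑ r ∈ Rn, (W.filter (fun n => n % T = r)).card := h1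
    _ ≤ ∑ r ∈ Rn, 3 * s * (r + μ r * T + 1) := sum_le_sum h2
    _ = ∑ i ∈ Rn.image (fun r => r + μ r * T), 3 * s * (i + 1) := by
        rw [sum_image hinj]
    _ ≤ ∑ i ∈ range (E.order * T), 3 * s * (i + 1) := by
        apply sum_le_sum_of_subset
        intro i hi
        obtain ⟨r, hr, rfl⟩ := mem_image.1 hi
        have h3 := hRlt r hr
        have h4 := hμ1 r hr
        rw [mem_range]
        calc r + μ r * T < T + μ r * T := by omega
          _ = (μ r + 1) * T := by ring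
          _ ≤ E.order * T := Nat.mul_le_mul_right _ h4
    _ = 3 * s * ∑ i ∈ range (E.order * T), (i + 1) := by rw [mul_sum]
    _ ≤ 3 * s * (E.order * T) ^ 2 := Nat.mul_le_mul_left _ (sum_le_sq _)
    _ ≤ 3 * s * (E.order * (4 * s ^ 2) ^ E.order) ^ 2 := by
        apply Nat.mul_le_mul_left
        apply Nat.pow_le_pow_left
        exact Nat.mul_le_mul_left _ hTle

/-- growth -/
theorem growth (E : LinearRecurrence ℤ) (w : ℕ → ℤ) (hw : E.IsSolution w) (M U : ℕ)
    (hM : ∑ i, (E.coeffs i).natAbs ≤ M) (hM1 : 1 ≤ M) (hU : ∀ i < E.order, (w i).natAbs ≤ U)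
    (n : ℕ) : (w n).natAbs ≤ U * M ^ n := by
  induction n using Nat.strong_induction_on with
  | _ n ih =>
    by_cases hn : n < E.order
    · calc (w n).natAbs ≤ U := hU n hn
        _ ≤ U * M ^ n := Nat.le_mul_of_pos_right _ (by positivity)
    · push Not at hn
      obtain ⟨k, rfl⟩ : ∃ k, n = k + E.order := ⟨n - E.order, by omega⟩
      rw [hw k]
      by_cases hd : E.order = 0
      · have : IsEmpty (Fin E.order) := by rw [hd]; infer_instance
        simp
      calc (∑ i, E.coeffs i * w (k + i)).natAbs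
          ≤ ∑ i, (E.coeffs i * w (k + i)).natAbs := Int.natAbs_sum_le _ _
        _ ≤ ∑ i, (E.coeffs i).natAbs * (U * M ^ (k + E.order - 1)) := by
            apply sum_le_sum
            intro i _
            rw [Int.natAbs_mul]
            apply Nat.mul_le_mul_left
            have hi := i.2
            refine (ih (k + i) (by omega)).trans ?_
            apply Nat.mul_le_mul_left
            exact Nat.pow_le_pow_right hM1 (by omega)
        _ = (∑ i, (E.coeffs i).natAbs) * (U * M ^ (k + E.order - 1)) := by rw [sum_mul]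
        _ ≤ M * (U * M ^ (k + E.order - 1)) := Nat.mul_le_mul_right _ hM
        _ = U * M ^ (k + E.order) := by
            have : k + E.order = (k + E.order - 1) + 1 := by omega
            conv_rhs => rw [this, pow_succ]
            ring

end Pool.Agent.Work.MP_8d13b5_lc.Qu
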