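import Pool.Agent.Work.MP_8d13b5_lc.Qu.Comp

set_option autoImplicit false

/-!
Quantitative form of `SparseExceptions`, part 5: the set of large isolated zeros, the decision
procedure.
-/

namespace Pool.Agent.Work.MP_8d13b5_lc.Qu

open Finset Encodable Pool.Agent.Work.MP_8d13b5_lc Pool.Agent.Work.MP_8d13b5_lc.US

/-- exceptional zeros are the zeros which lie in no infinite arithmetic progression of zeros -/
theorem exc_iff (x : Code) (hx : valid x) (n : ℕ) :
    Exc x n ↔ val x n = 0 ∧ ∀ T, 0 < T → ∃ k, val x (n + k * T) ≠ 0 := by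
  constructor
  · rintro ⟨h0, m, hm, hne⟩
    refine ⟨h0, fun T hT => ?_⟩
    by_contra hcon
    push Not at hcon
    obtain ⟨E, hd, v, hc0, rfl⟩ := exists_code x hx
    have hP : 0 < per (code E v) := per_pos _
    have hne' : E.mkSol v (n % per (code E v) + m * per (code E v)) ≠ 0 := by
      rw [← val_code E hd]
      exact hne
    set K := 2 * (E.mkSol v (n % per (code E v) + m * per (code E v))).natAbs with hK
    have hinj : Function.Injective (fun j : ℕ => n + (j * per (code E v)) * T) := by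
      intro a b hab
      simp only [Nat.add_left_cancel_iff] at hab
      have h3 := Nat.eq_of_mul_eq_mul_right hT hab
      exact Nat.eq_of_mul_eq_mul_right hP h3
    have hcard := card_class E hd hc0 v (n % per (code E v))
      ((range (K + 1)).image (fun j : ℕ => n + (j * per (code E v)) * T)) (by
        intro a ha
        obtain ⟨j, _, rfl⟩ := mem_image.1 ha
        refine ⟨?_, ?_⟩
        · rw [← val_code E hd]
          exact hcon _
        · rw [show n + (j * per (code E v)) * T = n + (j * T) * per (code E v) by ring,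
            Nat.add_mul_mod_self_right]) m hne'
    rw [card_image_of_injective _ hinj, card_range] at hcard
    omega
  · rintro ⟨h0, h⟩
    refine ⟨h0, ?_⟩
    by_contra hcon
    push Not at hcon
    obtain ⟨k, hk⟩ := h (per x) (per_pos x)
    apply hk
    have h1 := Nat.mod_add_div n (per x)
    have h2 := class_zero x hx _ hcon (n / per x + k)
    rw [show n % per x + (n / per x + k) * per x =
      (n % per x + per x * (n / per x)) + k * per x by ring, h1] at h2
    exact h2

section

variable (g : ℕ → ℕ)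

/-- the indices outside the large isolated zeros -/
def SG : Set ℕ := {n | ∀ x : Code, valid x → g (cx x) ≤ n → ¬ Exc x n}

variable {g}

/-- the complement is sparse -/
theorem card_SG (hm : Monotone g) (t : ℕ) (W : Finset ℕ)
    (hW : ∀ n ∈ W, n < g (t + 1) ∧ n ∉ SG g) : W.card ≤ 2 ^ (9 * t) := by
  apply card_all t W
  intro n hn
  obtain ⟨h1, h2⟩ := hW n hn
  have h3 : ¬ ∀ x : Code, valid x → g (cx x) ≤ n → ¬ Exc x n := h2
  push Not at h3
  obtain ⟨x, hx, hle, hex⟩ := h3
  refine ⟨x, hx, ?_, hex⟩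
  by_contra hcon
  have h4 : g (t + 1) ≤ g (cx x) := hm (by omega)
  omega

theorem lt_g (hlow : ∀ t, 2 ^ (10 * t) ≤ g t) (t : ℕ) : t < g t := by
  refine lt_of_lt_of_le ?_ (hlow t)
  calc t < 2 ^ t := Nat.lt_two_pow_self
    _ ≤ 2 ^ (10 * t) := Nat.pow_le_pow_right (by norm_num) (by omega)

/-- every residue class meets the set -/
theorem exists_mem_class' (hm : Monotone g) (hlow : ∀ t, 2 ^ (10 * t) ≤ g t) (T r : ℕ)
    (hr : r < T) : ∃ m, r + m * T ∈ SG g := by
  classical
  by_contra hcon
  push Not at hcon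
  have hT : 0 < T := by omega
  set K := 2 ^ (9 * T) + 1 with hK
  have h1 := card_SG hm T ((range K).image (fun m => r + m * T)) (by
    intro n hn
    obtain ⟨m, hm', rfl⟩ := mem_image.1 hn
    rw [mem_range] at hm'
    refine ⟨?_, hcon m⟩
    refine lt_of_lt_of_le ?_ (hlow (T + 1))
    have h2 : T < 2 ^ T := Nat.lt_two_pow_self
    have h3 : r + m * T < (m + 1) * T := by rw [add_mul]; omega
    have h4 : (m + 1) * T ≤ K * T := Nat.mul_le_mul_right _ (by omega)
    have h5 : K * T ≤ 2 ^ (9 * T + 1) * 2 ^ T := by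
      apply Nat.mul_le_mul _ h2.le
      rw [hK, pow_succ]
      have : 1 ≤ 2 ^ (9 * T) := Nat.one_le_two_pow
      omega
    have h6 : 2 ^ (9 * T + 1) * 2 ^ T ≤ 2 ^ (10 * (T + 1)) := by
      rw [← pow_add]
      exact Nat.pow_le_pow_right (by norm_num) (by omega)
    omega)
  have hinj : Function.Injective (fun m : ℕ => r + m * T) := by
    intro a b hab
    simp only [Nat.add_left_cancel_iff] at hab
    exact Nat.eq_of_mul_eq_mul_right hT hab
  rw [card_image_of_injective _ hinj, card_range] at h1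
  omega

open Classical in
/-- the first `t` with `n < g t` -/
noncomputable def Gn (hlow : ∀ t, 2 ^ (10 * t) ≤ g t) (n : ℕ) : ℕ :=
  Nat.find (⟨n, lt_g hlow n⟩ : ∃ t, n < g t)

theorem Gn_le (hlow : ∀ t, 2 ^ (10 * t) ≤ g t) (n : ℕ) : Gn hlow n ≤ n :=
  Nat.find_min' _ (lt_g hlow n)

theorem lt_Gn (hm : Monotone g) (hlow : ∀ t, 2 ^ (10 * t) ≤ g t) (n t : ℕ) :
    t < Gn hlow n ↔ g t ≤ n := by
  classical
  constructor
  · intro h
    have := Nat.find_min (⟨n, lt_g hlow n⟩ : ∃ t, n < g t) h
    omega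
  · intro h
    by_contra hcon
    have h1 : n < g (Gn hlow n) := Nat.find_spec (⟨n, lt_g hlow n⟩ : ∃ t, n < g t)
    have h2 := hm (not_lt.1 hcon)
    omega

theorem computable_Gn (hg : Computable g) (hlow : ∀ t, 2 ^ (10 * t) ≤ g t) :
    Computable (Gn hlow) := by
  classical
  have hp : Computable₂ (fun n t : ℕ => decide (n < g t)) := by
    have h : Computable₂ (fun a b : ℕ => decide (a < b)) := Primrec.nat_lt.decide.to_comp
    exact h.comp Computable.fst (hg.comp Computable.snd)
  have h4 : Partrec (fun n : ℕ => Nat.rfind (fun t => Part.some (decide (n < g t)))) :=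
    Partrec.rfind hp.partrec₂
  refine h4.of_eq_tot fun n => ?_
  refine Nat.mem_rfind.2 ⟨?_, ?_⟩
  · have := Nat.find_spec (⟨n, lt_g hlow n⟩ : ∃ t, n < g t)
    rw [Part.mem_some_iff]
    symm
    exact decide_eq_true this
  · intro m hm'
    have := Nat.find_min (⟨n, lt_g hlow n⟩ : ∃ t, n < g t) hm'
    rw [Part.mem_some_iff]
    symm
    exact decide_eq_false this

theorem mem_SG_iff (hm : Monotone g) (hlow : ∀ t, 2 ^ (10 * t) ≤ g t) (n : ℕ) :
    n ∈ SG g ↔ RQ (Gn hlow n) n := by
  constructor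
  · rintro h e - ⟨x, -, hv, hc, hex⟩
    exact h x hv ((lt_Gn hm hlow n _).1 hc) hex
  · intro h x hv hle hex
    have h1 : cx x < Gn hlow n := (lt_Gn hm hlow n _).2 hle
    have h2 := Gn_le hlow n
    refine h (encode x) (encode_lt_BB x n ?_) ⟨x, encodek x, hv, h1, hex⟩
    unfold cx at h1
    omega

open Classical in
theorem computable_SG (hg : Computable g) (hm : Monotone g) (hlow : ∀ t, 2 ^ (10 * t) ≤ g t) :
    Computable (fun n => decide (n ∈ SG g)) := by
  have h1 : Computable₂ (fun a b : ℕ => decide (RQ a b)) := primrec_RQ.decide.to_comp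
  refine (h1.comp (computable_Gn hg hlow) Computable.id).of_eq fun n => ?_
  simp only [id]
  rw [decide_eq_decide]
  exact (mem_SG_iff hm hlow n).symm

end

/-- search for a zero in `S` below `k` -/
noncomputable def sb (S : Set ℕ) (x : Code) (k : ℕ) : Bool :=
  open Classical in
  Nat.rec (motive := fun _ => Bool) false
    (fun n ih => ih || (decide (n ∈ S) && decide (val x n = 0))) k

theorem sb_iff (S : Set ℕ) (x : Code) (k : ℕ) :
    sb S x k = true ↔ ∃ n < k, n ∈ S ∧ val x n = 0 := by
  classical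
  induction k with
  | zero => simp [sb]
  | succ k ih =>
    have h : sb S x (k + 1) = (sb S x k || (decide (k ∈ S) && decide (val x k = 0))) := rfl
    rw [h, Bool.or_eq_true, ih, Bool.and_eq_true, decide_eq_true_eq, decide_eq_true_eq]
    constructor
    · rintro (⟨n, hn, h⟩ | h)
      · exact ⟨n, by omega, h⟩
      · exact ⟨k, by omega, h⟩
    · rintro ⟨n, hn, hS, hv⟩
      rcases Nat.lt_succ_iff_lt_or_eq.1 hn with h' | h'
      · exact Or.inl ⟨n, h', hS, hv⟩
      · rw [h'] at hS hv
        exact Or.inr ⟨hS, hv⟩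

open Classical in
theorem computable_sb (S : Set ℕ) (hS : Computable (fun n => decide (n ∈ S))) :
    Computable₂ (sb S) := by
  obtain ⟨χ, hχ⟩ : ∃ χ : ℕ → Bool, χ = fun n => decide (n ∈ S) := ⟨_, rfl⟩
  have hχc : Computable χ := by
    rw [hχ]
    exact hS
  obtain ⟨ζ, hζ⟩ : ∃ ζ : Code → ℕ → Bool, ζ = fun x n => decide (val x n = 0) := ⟨_, rfl⟩
  have hζc : Computable₂ ζ := by
    rw [hζ]
    have h : PrimrecRel (fun (x : Code) (n : ℕ) => val x n = 0) :=
      Primrec.eq.comp primrec_val (Primrec.const 0)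
    exact h.decide.to_comp
  have h1 : Computable₂ (fun (p : Code × ℕ) (q : ℕ × Bool) => (q.2 || (χ q.1 && ζ p.1 q.1))) := by
    have ha : Computable (fun r : (Code × ℕ) × (ℕ × Bool) => r.2.2) :=
      Computable.snd.comp Computable.snd
    have hb : Computable (fun r : (Code × ℕ) × (ℕ × Bool) => χ r.2.1) :=
      hχc.comp (Computable.fst.comp Computable.snd)
    have hc : Computable (fun r : (Code × ℕ) × (ℕ × Bool) => ζ r.1.1 r.2.1) :=
      hζc.comp (Computable.fst.comp Computable.fst) (Computable.fst.comp Computable.snd)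
    exact Primrec.or.to_comp.comp ha (Primrec.and.to_comp.comp hb hc)
  have h2 : Computable (fun p : Code × ℕ => Nat.rec (motive := fun _ => Bool) false
      (fun n ih => ih || (χ n && ζ p.1 n)) p.2) :=
    Computable.nat_rec (f := fun p : Code × ℕ => p.2) (g := fun _ => false)
      (h := fun (p : Code × ℕ) (q : ℕ × Bool) => (q.2 || (χ q.1 && ζ p.1 q.1)))
      Computable.snd (Computable.const false) h1
  have h3 : (fun p : Code × ℕ => sb S p.1 p.2) = (fun p : Code × ℕ =>
      Nat.rec (motive := fun _ => Bool) false (fun n ih => ih || (χ n && ζ p.1 n)) p.2) := by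
    funext p
    unfold sb
    rw [hχ, hζ]
  show Computable (fun p : Code × ℕ => sb S p.1 p.2)
  rw [h3]
  exact h2

/-- zeros in `SG g` beyond the threshold lie in a class of zeros -/
theorem zero_of_ge' (g : ℕ → ℕ) (x : Code) (hx : valid x) (n : ℕ)
    (hn : n ∈ SG g) (h0 : val x n = 0) (hge : g (cx x) ≤ n) (m : ℕ) :
    val x (n % per x + m * per x) = 0 := by
  apply class_zero x hx
  by_contra hcon
  push Not at hcon
  exact hn x hx hge ⟨h0, hcon⟩

open Classical in
/-- the decision procedure -/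
noncomputable def DQ (g : ℕ → ℕ) (x : Code) : Bool :=
  decide (AA x) || sb (SG g) x (g (cx x))

theorem computable_DQ {g : ℕ → ℕ} (hg : Computable g) (hm : Monotone g)
    (hlow : ∀ t, 2 ^ (10 * t) ≤ g t) : Computable (DQ g) := by
  classical
  refine Primrec.or.to_comp.comp primrec_AA.decide.to_comp ?_
  exact (computable_sb _ (computable_SG hg hm hlow)).comp Computable.id
    (hg.comp primrec_cx.to_comp)

theorem DQ_spec {g : ℕ → ℕ} (hm : Monotone g) (hlow : ∀ t, 2 ^ (10 * t) ≤ g t)
    (x : Code) (hx : valid x) : DQ g x = true ↔ ∃ n ∈ SG g, val x n = 0 := by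
  classical
  unfold DQ
  rw [Bool.or_eq_true, decide_eq_true_eq, sb_iff]
  constructor
  · rintro (⟨r, hr, h⟩ | ⟨n, _, h1, h2⟩)
    · obtain ⟨m, hm'⟩ := exists_mem_class' hm hlow (per x) r hr
      exact ⟨_, hm', class_zero x hx r h m⟩
    · exact ⟨n, h1, h2⟩
  · rintro ⟨n, h1, h2⟩
    rcases lt_or_ge n (g (cx x)) with h | h
    · exact Or.inr ⟨n, h, h1, h2⟩
    · left
      exact ⟨n % per x, Nat.mod_lt _ (per_pos x), fun m _ => zero_of_ge' g x hx n h1 h2 h m⟩

/-- every number is an isolated zero of a sequence of small complexity -/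
theorem exists_small (n : ℕ) :
    ∃ x : Code, valid x ∧ cx x ≤ 4 * Nat.log 2 n + 30 ∧ ∀ m, val x m = (m : ℤ) - n := by
  set x : Code := ([2, -1], [-(n : ℤ), 1 - n]) with hx
  have hv : valid x := by
    refine ⟨rfl, by simp [hx], ?_⟩
    show (-1 : ℤ) ≠ 0
    norm_num
  refine ⟨x, hv, ?_, ?_⟩
  · set L := Nat.log 2 n with hL
    have e1 : wt 2 = 3 := by
      unfold wt
      have : Nat.log 2 (2 : ℤ).natAbs = 1 := by norm_num
      omega
    have e2 : wt (-1) = 2 := by
      unfold wt
      have : Nat.log 2 (-1 : ℤ).natAbs = 0 := by norm_num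
      omega
    have e3 : wt (-(n : ℤ)) = L + 2 := by
      unfold wt
      rw [Int.natAbs_neg, Int.natAbs_natCast]
    have e4 : wt (1 - (n : ℤ)) ≤ L + 2 := by
      unfold wt
      have h1 : (1 - (n : ℤ)).natAbs ≤ max n 1 := by omega
      have h2 := Nat.log_mono_right (b := 2) h1
      rcases Nat.eq_zero_or_pos n with h | h
      · rw [h] at h2 ⊢
        norm_num
      · rw [max_eq_left h] at h2
        omega
    have hs : sz x ≤ 2 * L + 9 := by
      show wt 2 + (wt (-1) + 0) + (wt (-(n : ℤ)) + (wt (1 - (n : ℤ)) + 0)) ≤ _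
      omega
    have hl : Nat.log 2 (sz x) ≤ L + 4 := by
      refine (Nat.log_mono_right hs).trans ?_
      have h5 : 2 * L + 9 < 2 ^ (L + 4 + 1) := by
        have : L < 2 ^ L := Nat.lt_two_pow_self
        have h6 : 2 ^ (L + 4 + 1) = 32 * 2 ^ L := by ring
        omega
      have := Nat.log_lt_of_lt_pow (by omega) h5
      omega
    have hlen : x.1.length = 2 := rfl
    unfold cx
    rw [hlen]
    omega
  · intro m
    symm
    apply eq_val x hv (fun m => (m : ℤ) - n)
    · intro i hi
      have hi' : i < 2 := hi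
      interval_cases i
      · show (((0 : ℕ) : ℤ)) - n = -(n : ℤ)
        simp
      · show (((1 : ℕ) : ℤ)) - n = 1 - (n : ℤ)
        simp
    · intro k
      show (((k + 2 : ℕ) : ℤ)) - n = ∑ j ∈ range 2, x.1.getD j 0 * ((((k + 2 - 1 - j : ℕ)) : ℤ) - n)
      rw [sum_range_succ, sum_range_one]
      show (((k + 2 : ℕ) : ℤ)) - n = 2 * ((((k + 2 - 1 - 0 : ℕ)) : ℤ) - n) +
        (-1) * ((((k + 2 - 1 - 1 : ℕ)) : ℤ) - n)
      have h1 : k + 2 - 1 - 0 = k + 1 := by omega
      have h2 : k + 2 - 1 - 1 = k := by omega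
      rw [h1, h2]
      push_cast
      ring

end Pool.Agent.Work.MP_8d13b5_lc.Qu
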