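import Pool.Agent.Work.MP_8d13b5_lc.USMain

set_option autoImplicit false

/-!
Quantitative form of `SparseExceptions`, part 1: a prime `p ≤ 4 s ^ 2` not dividing the last
coefficient and a period `T ≤ p ^ d` of the recurrence modulo `p`.
-/

namespace Pool.Agent.Work.MP_8d13b5_lc.Qu

open Polynomial Finset Pool.Agent.Work.MP_8d13b5_lc Pool.Agent.Work.MP_8d13b5_lc.US

/-- a period `T ≤ p ^ d` modulo `p` -/
theorem period_le (E : LinearRecurrence ℤ) (hd : 0 < E.order) (p : ℕ) [hp : Fact p.Prime]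
    (hc : ¬ (p : ℤ) ∣ E.coeffs ⟨0, hd⟩) :
    ∃ T : ℕ, 0 < T ∧ T ≤ p ^ E.order ∧
      ∀ s : ℕ → ℤ, E.IsSolution s → ∀ n, (p : ℤ) ∣ s (n + T) - s n := by
  classical
  set E' := redRec E p with hE'
  set f := E'.charPoly with hf
  have hmon : f.Monic := E'.charPoly_monic
  have hdeg : f.degree = (E.order : ℕ) := E'.charPoly_degree_eq_order
  have h0 : f.coeff 0 ≠ 0 := by
    have h1 : f.coeff 0 = ((E.charPoly.coeff 0 : ℤ) : ZMod p) := by
      rw [hf, hE', charPoly_redRec, coeff_map]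
      rfl
    rw [h1, charPoly_coeff_zero E hd]
    intro h
    apply hc
    rw [← ZMod.intCast_zmod_eq_zero_iff_dvd]
    push_cast at h
    exact neg_eq_zero.1 h
  -- pigeonhole
  let F : ℕ → (Fin E.order → ZMod p) := fun i k => ((X : (ZMod p)[X]) ^ i %ₘ f).coeff k
  have hcard : Fintype.card (Fin E.order → ZMod p) = p ^ E.order := by
    rw [Fintype.card_fun, ZMod.card, Fintype.card_fin]
  have hpig : ∃ a ∈ range (p ^ E.order + 1), ∃ b ∈ range (p ^ E.order + 1), a ≠ b ∧ F a = F b := by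
    apply exists_ne_map_eq_of_card_lt_of_maps_to (t := univ)
    · rw [card_univ, hcard, card_range]
      exact Nat.lt_succ_self _
    · intro x _
      simp
  have key : ∀ a b : ℕ, a < b → b ≤ p ^ E.order → F a = F b → ∃ T : ℕ, 0 < T ∧ T ≤ p ^ E.order ∧
      f ∣ X ^ T - 1 := by
    intro a b hab hb hF
    have hmod : (X : (ZMod p)[X]) ^ a %ₘ f = X ^ b %ₘ f := by
      ext k
      by_cases hk : k < E.order
      · exact congrFun hF ⟨k, hk⟩
      · have h1 : ∀ i, ((X : (ZMod p)[X]) ^ i %ₘ f).coeff k = 0 := by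
          intro i
          apply coeff_eq_zero_of_degree_lt
          refine (degree_modByMonic_lt _ hmon).trans_le ?_
          rw [hdeg]
          exact_mod_cast (not_lt.1 hk)
        rw [h1, h1]
    have hdvd : f ∣ X ^ b - X ^ a := by
      rw [← modByMonic_eq_zero_iff_dvd hmon, sub_modByMonic, hmod, sub_self]
    have hdvd2 : f ∣ X ^ a * (X ^ (b - a) - 1) := by
      rw [mul_sub, mul_one, ← pow_add, Nat.add_sub_cancel' hab.le]
      exact hdvd
    have hcop : IsCoprime f (X ^ a) := by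
      apply IsCoprime.pow_right
      apply IsCoprime.symm
      rw [Prime.coprime_iff_not_dvd prime_X, X_dvd_iff]
      exact h0
    exact ⟨b - a, by omega, by omega, hcop.dvd_of_dvd_mul_left hdvd2⟩
  obtain ⟨a, ha, b, hb, hab, hF⟩ := hpig
  rw [mem_range] at ha hb
  obtain ⟨T, hT0, hT1, hT2⟩ : ∃ T : ℕ, 0 < T ∧ T ≤ p ^ E.order ∧ f ∣ X ^ T - 1 := by
    rcases Nat.lt_or_gt_of_ne hab with h | h
    · exact key a b h (by omega) hF
    · exact key b a h (by omega) hF.symm
  refine ⟨T, hT0, hT1, ?_⟩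
  intro s hs n
  have h1 : E'.IsSolution (fun n => ((s n : ℤ) : ZMod p)) := by
    intro k
    show ((s (k + E.order) : ℤ) : ZMod p) = ∑ i : Fin E.order, (E.coeffs i : ZMod p) * (s (k + i) : ℤ)
    rw [hs k]
    push_cast
    rfl
  have h2 := periodic_of_dvd E' T hT2 _ h1 n
  rw [← ZMod.intCast_zmod_eq_zero_iff_dvd]
  push_cast
  rw [h2, sub_self]

theorem aux1 (s : ℕ) (hs : 2 ≤ s) : 4 * s ^ 2 + 1 ≤ 2 ^ (2 * s + 1) := by
  induction s, hs using Nat.le_induction with
  | base => norm_num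
  | succ s hs ih =>
    have : 2 ^ (2 * (s + 1) + 1) = 4 * 2 ^ (2 * s + 1) := by
      rw [show 2 * (s + 1) + 1 = (2 * s + 1) + 2 by ring, pow_add]
      ring
    rw [this]
    nlinarith

/-- a small odd prime not dividing `c` -/
theorem exists_prime_le (c : ℕ) (hc : c ≠ 0) (s : ℕ) (hs : 2 ≤ s) (hcs : c < 2 ^ s) :
    ∃ p : ℕ, p.Prime ∧ 3 ≤ p ∧ p ≤ 4 * s ^ 2 ∧ ¬ p ∣ c := by
  classical
  by_contra hcon
  push Not at hcon
  set n := 4 * s ^ 2 with hn
  set A := ((Nat.primesLE n).filter (fun p => 3 ≤ p)) with hA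
  have hmem : ∀ p, p ∈ A ↔ p.Prime ∧ p ≤ n ∧ 3 ≤ p := by
    intro p
    rw [hA, mem_filter, Nat.mem_primesLE]
    tauto
  have hprod : ∏ p ∈ A, p ∣ c := by
    apply Finset.prod_primes_dvd
    · intro p hp
      exact ((hmem p).1 hp).1.prime
    · intro p hp
      obtain ⟨h1, h2, h3⟩ := (hmem p).1 hp
      exact hcon p h1 h3 h2
  have hle : ∏ p ∈ A, p ≤ c := Nat.le_of_dvd (Nat.pos_of_ne_zero hc) hprod
  have h2A : 2 ^ A.card ≤ ∏ p ∈ A, p := by
    rw [← prod_const]
    apply prod_le_prod'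
    intro p hp
    have := ((hmem p).1 hp).2.2
    omega
  have hAs : A.card < s := by
    apply (Nat.pow_lt_pow_iff_right (by norm_num : 1 < 2)).1
    omega
  have hcard : (Nat.primesLE n).card ≤ s := by
    have : Nat.primesLE n ⊆ insert 2 A := by
      intro p hp
      rw [Nat.mem_primesLE] at hp
      rw [mem_insert, hmem]
      rcases Nat.lt_or_ge p 3 with h | h
      · left
        have := hp.2.two_le
        omega
      · right
        exact ⟨hp.2, hp.1, h⟩
    have h1 := card_le_card this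
    have h2 := card_insert_le 2 A
    omega
  have hlcm : Nat.lcmUpto n ≤ (n + 1) ^ s := by
    rw [Nat.lcmUpto_eq_prod_pow_log]
    calc ∏ p ∈ Nat.primesLE n, p ^ p.log n ≤ ∏ p ∈ Nat.primesLE n, (n + 1) := by
          apply prod_le_prod'
          intro p hp
          have h1 : p ^ p.log n ≤ n := Nat.pow_log_le_self p (by rw [hn]; positivity)
          omega
      _ = (n + 1) ^ (Nat.primesLE n).card := by rw [prod_const]
      _ ≤ (n + 1) ^ s := Nat.pow_le_pow_right (by omega) hcard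
  have h1 := Chebyshev.two_pow_le_mul_lcmUpto n
  have h2 : 2 ^ n ≤ (n + 1) ^ (s + 1) := by
    calc 2 ^ n ≤ (n + 1) * Nat.lcmUpto n := h1
      _ ≤ (n + 1) * (n + 1) ^ s := Nat.mul_le_mul_left _ hlcm
      _ = (n + 1) ^ (s + 1) := by ring
  have h3 : (n + 1) ^ (s + 1) ≤ (2 ^ (2 * s + 1)) ^ (s + 1) :=
    Nat.pow_le_pow_left (aux1 s hs) _
  rw [← pow_mul] at h3
  have h4 := (Nat.pow_le_pow_iff_right (by norm_num : 1 < 2)).1 (h2.trans h3)
  rw [hn] at h4
  nlinarith

end Pool.Agent.Work.MP_8d13b5_lc.Qu
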